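import Pool.Agent.Helper71.UQ.Goals

set_option autoImplicit false

/-!
# UQ-NUM (MP_9b2a83_an, project of helper71): the final numerical estimates
-/

namespace Pool.Agent.Helper7.UQ.PkNUM

open Pool.Agent.Helper39.Net Pool.Agent.Helper71.UQ

theorem e_pos : (0 : ℝ) < Real.exp 1 := Real.exp_pos 1

theorem one_le_e : (1 : ℝ) ≤ Real.exp 1 := Real.one_le_exp (by norm_num)

theorem ll_one {y : ℝ} (hy : 0 ≤ y) : 1 ≤ ll y := by
  unfold ll
  rw [Real.le_log_iff_exp_le (by linarith [e_pos])]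
  linarith

theorem ll_mono {y z : ℝ} (hy : 0 ≤ y) (h : y ≤ z) : ll y ≤ ll z := by
  unfold ll
  exact Real.log_le_log (by linarith [e_pos]) (by linarith)

theorem ll_mul {C y : ℝ} (hC : 1 ≤ C) (hy : 0 ≤ y) : ll (C * y) ≤ Real.log C + ll y := by
  unfold ll
  rw [← Real.log_mul (by linarith) (by linarith [e_pos])]
  refine Real.log_le_log (by nlinarith [e_pos, mul_nonneg (by linarith : (0 : ℝ) ≤ C) hy]) ?_
  have : Real.exp 1 ≤ C * Real.exp 1 := by nlinarith [e_pos]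
  nlinarith

theorem ll_le {y : ℝ} (hy : 0 ≤ y) : ll y ≤ 1 + y := by
  unfold ll
  rw [Real.log_le_iff_le_exp (by linarith [e_pos]), Real.exp_add]
  have h1 : y + 1 ≤ Real.exp y := Real.add_one_le_exp y
  nlinarith [one_le_e, e_pos]

theorem log24 : Real.log 24 ≤ 4 := by
  have h1 : Real.log 24 ≤ Real.log ((2 : ℝ) ^ 5) := Real.log_le_log (by norm_num) (by norm_num)
  rw [Real.log_pow] at h1
  have := Real.log_two_lt_d9
  norm_num at h1
  linarith

theorem log5 : Real.log 5 ≤ 3 := by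
  have h1 : Real.log 5 ≤ Real.log ((2 : ℝ) ^ 3) := Real.log_le_log (by norm_num) (by norm_num)
  rw [Real.log_pow] at h1
  have := Real.log_two_lt_d9
  norm_num at h1
  linarith

theorem six_le (c : ℝ) (hc : 1 < c) : 6 / (2 : ℝ) ^ qc c ≤ c - 1 := by
  have hc0 : 0 < c - 1 := by linarith
  have hpos : 0 < 6 * (1 / (c - 1)) := by positivity
  have h1 : Real.logb 2 (6 * (1 / (c - 1))) ≤ ⌈Real.logb 2 (6 * (1 / (c - 1)))⌉₊ := Nat.le_ceil _
  rw [Real.logb_le_iff_le_rpow (by norm_num) hpos, Real.rpow_natCast] at h1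
  have h2 : (2 : ℝ) ^ ⌈Real.logb 2 (6 * (1 / (c - 1)))⌉₊ ≤ 2 ^ qc c :=
    pow_le_pow_right₀ (by norm_num) (le_max_right _ _)
  have h3 : 6 * (1 / (c - 1)) ≤ (2 : ℝ) ^ qc c := h1.trans h2
  rw [mul_one_div, div_le_iff₀ hc0] at h3
  rw [div_le_iff₀ (by positivity)]
  linarith

theorem qc_le (c : ℝ) (hc : 1 < c) : (qc c : ℝ) ≤ 10 * G c := by
  set t := 1 / (c - 1) with ht
  have hc0 : 0 < c - 1 := by linarith
  have ht0 : 0 < t := by positivity
  have hlog : 0 ≤ Real.log (1 + t) := Real.log_nonneg (by linarith)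
  have h1 : qc c ≤ 6 + ⌈Real.logb 2 (6 * t)⌉₊ := by
    unfold qc
    rw [← ht]
    exact max_le (by omega) (by omega)
  have h2 : ⌈Real.logb 2 (6 * t)⌉₊ ≤ ⌈Real.logb 2 (8 * (1 + t))⌉₊ :=
    Nat.ceil_mono (Real.logb_le_logb_of_le (by norm_num) (by positivity) (by linarith))
  have h0 : 0 ≤ Real.logb 2 (8 * (1 + t)) := Real.logb_nonneg (by norm_num) (by linarith)
  have h3 : (⌈Real.logb 2 (8 * (1 + t))⌉₊ : ℝ) < Real.logb 2 (8 * (1 + t)) + 1 :=
    Nat.ceil_lt_add_one h0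
  have h4 : Real.logb 2 (8 * (1 + t)) = 3 + Real.logb 2 (1 + t) := by
    rw [Real.logb_mul (by norm_num) (by positivity)]
    congr 1
    rw [show (8 : ℝ) = 2 ^ (3 : ℕ) by norm_num, Real.logb_pow, Real.logb_self_eq_one
      (by norm_num)]
    norm_num
  have hl2 := Real.log_two_gt_d9
  have h5 : Real.logb 2 (1 + t) ≤ 3 / 2 * Real.log (1 + t) := by
    unfold Real.logb
    rw [div_le_iff₀ (by linarith)]
    nlinarith
  have h6 : (qc c : ℝ) ≤ 6 + (⌈Real.logb 2 (8 * (1 + t))⌉₊ : ℝ) := by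
    have : qc c ≤ 6 + ⌈Real.logb 2 (8 * (1 + t))⌉₊ := by omega
    exact_mod_cast this
  unfold G
  rw [← ht]
  linarith

theorem G_le (c : ℝ) (hc : 1 < c) : G c ≤ (qc c : ℝ) + 8 := by
  set t := 1 / (c - 1) with ht
  have hc0 : 0 < c - 1 := by linarith
  have ht0 : 0 < t := by positivity
  have hq0 : (0 : ℝ) ≤ qc c := Nat.cast_nonneg _
  have hl2 := Real.log_two_lt_d9
  have hl3 := Real.log_two_gt_d9
  unfold G
  rw [← ht]
  rcases lt_or_ge t 1 with h | h
  · have : Real.log (1 + t) ≤ Real.log 2 := Real.log_le_log (by linarith) (by linarith)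
    linarith
  · have h1 : Real.log (1 + t) ≤ Real.log (6 * t) := Real.log_le_log (by linarith) (by linarith)
    have h2 : 0 ≤ Real.log (6 * t) := Real.log_nonneg (by linarith)
    have h3 : Real.log (6 * t) ≤ Real.logb 2 (6 * t) := by
      unfold Real.logb
      rw [le_div_iff₀ (by linarith)]
      nlinarith
    have h4 : Real.logb 2 (6 * t) ≤ (⌈Real.logb 2 (6 * t)⌉₊ : ℝ) := Nat.le_ceil _
    have h5 : ⌈Real.logb 2 (6 * t)⌉₊ ≤ qc c := by
      unfold qc
      rw [← ht]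
      exact le_max_right _ _
    have h6 : (⌈Real.logb 2 (6 * t)⌉₊ : ℝ) ≤ qc c := by exact_mod_cast h5
    linarith

theorem one_le_bd (d : ℕ) (g : ℝ) (hg : 1 ≤ g) (A : ℝ) (hA : 2 ≤ A) : 1 ≤ A ^ d * bd d g := by
  have h1 := ll_one (y := g) (by linarith)
  have h2 := ll_le (y := g) (by linarith)
  have h3 := ll_one (y := ll g) (by linarith)
  have h4 : 1 / 2 ≤ g * ll (ll g) / ll g := by
    rw [le_div_iff₀ (by linarith)]
    nlinarith
  unfold bd
  have h5 : A ^ d * (g ^ 2 * ll g * (g * ll (ll g) / ll g) ^ d) =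
      (g ^ 2 * ll g) * (A * (g * ll (ll g) / ll g)) ^ d := by
    rw [mul_pow A]
    ring
  rw [h5]
  refine one_le_mul_of_one_le_of_one_le ?_ (one_le_pow₀ ?_)
  · exact one_le_mul_of_one_le_of_one_le (one_le_pow₀ hg) h1
  · nlinarith

theorem gr_le (d : ℕ) (hd : 1 ≤ d) (q g : ℝ) (hq0 : 0 ≤ q) (hg : 1 ≤ g) (hq : q ≤ 10 * g)
    (hgq : g ≤ q + 8) : (q + 5) * gr d (q + 8) ≤ (2400 * 96) ^ d * bd d g := by
  have a1 := ll_one (y := g) (by linarith)
  have a2 := ll_one (y := ll g) (by linarith)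
  have b1 := ll_one (y := q + 8) (by linarith)
  have b2 := ll_one (y := ll (q + 8)) (by linarith)
  have c1 : ll (q + 8) ≤ 5 * ll g := by
    have h1 : ll (q + 8) ≤ ll (24 * g) := ll_mono (by linarith) (by linarith)
    have h2 := ll_mul (C := 24) (y := g) (by norm_num) (by linarith)
    linarith [log24]
  have c2 : ll (ll (q + 8)) ≤ 4 * ll (ll g) := by
    have h1 : ll (ll (q + 8)) ≤ ll (5 * ll g) := ll_mono (by linarith) c1
    have h2 := ll_mul (C := 5) (y := ll g) (by norm_num) (by linarith)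
    linarith [log5]
  have c3 : ll g ≤ ll (q + 8) := ll_mono (by linarith) hgq
  have hx : q + 8 + 1 ≤ 24 * g := by linarith
  have hx0 : 0 ≤ q + 8 + 1 := by linarith
  have e1 : (q + 8 + 1) * ll (ll (q + 8)) / ll (q + 8) ≤ 96 * (g * ll (ll g) / ll g) := by
    have h1 : (q + 8 + 1) * ll (ll (q + 8)) ≤ (24 * g) * (4 * ll (ll g)) :=
      mul_le_mul hx c2 (by linarith) (by linarith)
    have h2 : 96 * (g * ll (ll g) / ll g) = (24 * g) * (4 * ll (ll g)) / ll g := by ring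
    rw [h2]
    exact div_le_div₀ (by positivity) h1 (by linarith) c3
  have e0 : 0 ≤ (q + 8 + 1) * ll (ll (q + 8)) / ll (q + 8) := by positivity
  have e2 : ((q + 8 + 1) * ll (ll (q + 8)) / ll (q + 8)) ^ d ≤
      96 ^ d * (g * ll (ll g) / ll g) ^ d := by
    rw [← mul_pow]
    exact pow_le_pow_left₀ e0 e1 d
  have f0 : 0 ≤ (g * ll (ll g) / ll g) ^ d := by positivity
  have e3 : (q + 5) * ((q + 8 + 1) * ll (q + 8)) ≤ (20 * g) * ((24 * g) * (5 * ll g)) := by
    refine mul_le_mul (by linarith) (mul_le_mul hx c1 (by linarith) (by linarith))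
      (mul_nonneg hx0 (by linarith)) (by linarith)
  unfold gr bd
  have e4 : (q + 5) * ((q + 8 + 1) * ll (q + 8) *
      ((q + 8 + 1) * ll (ll (q + 8)) / ll (q + 8)) ^ d) ≤
      (20 * g) * ((24 * g) * (5 * ll g)) * (96 ^ d * (g * ll (ll g) / ll g) ^ d) := by
    rw [← mul_assoc]
    exact mul_le_mul e3 e2 (pow_nonneg e0 d) (by positivity)
  refine e4.trans ?_
  have e5 : (2400 : ℝ) ≤ 2400 ^ d := by
    calc (2400 : ℝ) = 2400 ^ 1 := (pow_one _).symm
      _ ≤ 2400 ^ d := pow_le_pow_right₀ (by norm_num) hd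
  have e6 : 0 ≤ g ^ 2 * ll g * (96 ^ d * (g * ll (ll g) / ll g) ^ d) := by positivity
  calc (20 * g) * ((24 * g) * (5 * ll g)) * (96 ^ d * (g * ll (ll g) / ll g) ^ d)
      = 2400 * (g ^ 2 * ll g * (96 ^ d * (g * ll (ll g) / ll g) ^ d)) := by ring
    _ ≤ 2400 ^ d * (g ^ 2 * ll g * (96 ^ d * (g * ll (ll g) / ll g) ^ d)) :=
        mul_le_mul_of_nonneg_right e5 e6
    _ = (2400 * 96) ^ d * (g ^ 2 * ll g * (g * ll (ll g) / ll g) ^ d) := by
        rw [mul_pow]
        ring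

theorem thm : G_NUM := by
  refine ⟨six_le, 2400 * 96, by norm_num, fun c d hc hd => ?_⟩
  have hg := one_le_G hc
  exact ⟨gr_le d hd (qc c) (G c) (Nat.cast_nonneg _) hg (qc_le c hc) (G_le c hc),
    one_le_bd d (G c) hg _ (by norm_num)⟩

end Pool.Agent.Helper7.UQ.PkNUM
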